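import Mathlib
import Pool.Agent.H28.Q1.Typ

set_option autoImplicit false
open Finset Filter Topology

/-! # The target of the step is near, for a fixed base

`StGateB`, `StOkB` : the statements `StGate`, `StOk` for a fixed base. `stOkB` : `StOkB` holds in Jordan
domains. (Proofs of helper43, with a fixed base.) -/

namespace Pool.Agent.H79.M7

open Pool.Agent.H75.Perc Pool.Agent.H75.TwoArm Pool.Agent.H75.Four Pool.Agent.H99.NC
open Pool.Agent.H69.Q1 Pool.Agent.H39.Q1 Pool.Agent.H28.Q1 Pool.Agent.H65.Dom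
open Pool.Agent.H43.Q1
open Pool.Agent.H69.Q1.DEnv (steps adapted_steps Adapted)
open Pool.Agent.H81.Q1 (pt DDomain Approx IsJordanDomain IsArcs toDEnv_E toDEnv_W toDEnv_β
  Corner)
open Pool.Agent.Q1.M3
open Pool.Agent.H42.Q1 (route RB)
open Pool.Agent.H57.Q1 (Seq pieces_bound_Pr)

variable {D : Set ℂ} {a b : ℂ} {A₁ A₂ : Set ℂ}

/-- **[GATE]** for a fixed base. -/
def StGateB {A : Approx D a b A₁ A₂} {r0 : ℝ} (B : Base A r0) : Prop :=
  ∀ ε > 0, ∀ (k1 : ℕ) (C : Finset Cell), Fam B k1 C →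
    ∃ k00, ∀ k0, k00 ≤ k0 → ∀ᶠ n in atTop, ∀ (ω : Finset (ℤ × ℤ)) (hω : ω ⊆ (X0 A n).E) (t : ℕ),
      Mid B C n ω t → GateAt ⌊ε / A.δ n⌋ (X0 A n) ω hω t
        (star (B.F k0 n (env (X0 A n) ω hω t).E))

/-- **[OK]** for a fixed base. -/
def StOkB {A : Approx D a b A₁ A₂} {r0 : ℝ} (B : Base A r0) : Prop :=
  ∀ r > 0, ∀ θ > 0, ∀ (k1 : ℕ) (C : Finset Cell), Fam B k1 C →
    ∃ k00, ∀ k0, k00 ≤ k0 → ∀ᶠ n in atTop,
      Pr (X0 A n).E (fun ω => ∃ hω : ω ⊆ (X0 A n).E, ∃ t ≤ (X0 A n).len ω,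
        (∃ u < t, plab ((X0 A n).cor ω u) ∈ star (Vn (A.δ n) B.o C)) ∧
        (∀ u < t, plab ((X0 A n).cor ω u) ∉ star (B.N n)) ∧
        ¬ Ok ⌊r / A.δ n⌋ (star (B.F k0 n (envt (X0 A n) ω hω t).E)) (envt (X0 A n) ω hω t)) ≤ θ

/-- **Small gates.** -/
theorem gateB_of_typ (hDo : IsOpen D) (hDb : Bornology.IsBounded D) (hA : IsArcs D a b A₁ A₂)
    (A : Approx D a b A₁ A₂) (hT : StTyp A) {r0 : ℝ} (B : Base A r0) : StGateB B := by
  classical
  intro ε hε k1 C hF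
  set C' := insert B.qb C with hC'
  have hC'D : ∀ q ∈ C', cfat B.o q ⊆ D := by
    intro q hq
    rcases mem_insert.1 hq with rfl | hq
    · exact (B.subQ 0 _ B.qb_mem).trans Set.inter_subset_left
    · exact hF.sub q hq
  obtain ⟨d, hd, hfar⟩ := orig_far hDo hA A B.o hC'D
  set s := min ε d with hs
  have hs0 : 0 < s := lt_min hε hd
  have hsε : s ≤ ε := min_le_left _ _
  have hsd : s ≤ d := min_le_right _ _
  obtain ⟨k01, hk01⟩ := kset hDo hDb hA B (ρ1 := s / 20) (by positivity)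
  obtain ⟨k02, hk02⟩ := hT r0 B (s / 20) (by positivity)
  obtain ⟨k03, hk03⟩ := mesh_lt (show (0 : ℝ) < s / 80 by positivity)
  refine ⟨max k01 (max k02 k03), fun k0 hk0 => ?_⟩
  have hk0' := le_of_max_le_right hk0
  have hm0 := hk03 k0 (le_of_max_le_right hk0')
  set kk := max k1 B.qb.1 with hkk
  have e1 : ∀ᶠ n in atTop, A.δ n < s / 100 := A.lim.eventually_lt_const (by positivity)
  have e2 : ∀ᶠ n in atTop, A.δ n < mesh (kk + 1) := A.lim.eventually_lt_const (mesh_pos _)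
  filter_upwards [hk01 k0 (le_of_max_le_left hk0), hk02 k0 (le_of_max_le_left hk0'), hfar,
    star_free hDo hDb hA A B.o hC'D, e1, e2] with n h1 h2 h3 h4 h5 h6
  intro ω hω t hMid
  have hδ := A.pos n
  obtain ⟨ht, hmet, hunm⟩ := hMid
  obtain ⟨K, hK1, hK2, hK3, hK4, hK5, hK6⟩ := h1 ω hω t ht hunm
  -- the scales
  set ρ : ℤ := ⌈8 * mesh k0 / A.δ n⌉ with hρd
  set ρb : ℤ := ⌈s / 10 / A.δ n⌉ + 1 with hρbd
  have hm := mesh_pos k0
  have hρ : 0 ≤ ρ := Int.ceil_nonneg (by positivity)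
  have hρb : 0 ≤ ρb := by
    have : (0 : ℤ) ≤ ⌈s / 10 / A.δ n⌉ := Int.ceil_nonneg (by positivity)
    omega
  have hρle : A.δ n * ρ ≤ s / 10 + A.δ n := by
    have := mul_le_mul_of_nonneg_left (Int.ceil_lt_add_one (8 * mesh k0 / A.δ n)).le hδ.le
    rw [mul_add, mul_div_cancel₀ _ hδ.ne', ← hρd] at this
    linarith
  have hρble : A.δ n * ρb ≤ s / 10 + 2 * A.δ n := by
    have := mul_le_mul_of_nonneg_left (Int.ceil_lt_add_one (s / 10 / A.δ n)).le hδ.le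
    rw [mul_add, mul_div_cancel₀ _ hδ.ne'] at this
    rw [hρbd]
    push_cast
    linarith
  set V := Vn (A.δ n) B.o C' with hV
  have hCV : Vn (A.δ n) B.o C ⊆ V := Vn_mono (subset_insert _ _)
  have hno : ∀ w, ¬ RB (0 : ℤ) (-1) 0 (-1) w := by
    rintro w ⟨g1, g2, -, -⟩
    omega
  have h1k : (((-1 : ℤ) - 0 : ℤ) : ℝ) + 2 < mesh (kk + 1) / A.δ n := by
    rw [lt_div_iff₀ hδ]; push_cast; linarith
  have hlev : ∀ q ∈ C', q.1 ≤ kk := by
    intro q hq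
    rcases mem_insert.1 hq with rfl | hq
    · exact le_max_right _ _
    · rw [hF.lev q hq]
      exact le_max_left _ _
  refine gateAt_of_typed hω (Pool.Agent.H28.Q1.inv_toDEnv _) ht hK5 hK2 hK1 hK6 (V := V) h4 ?_ ?_
    (ρ := ρ) (ρb := ρb) hρ hρb (pb := ctr (A.δ n) b) ?_ ?_ ?_ ?_
  · intro v hv
    obtain ⟨q, hq, hvq⟩ := mem_Vn.1 hv
    obtain ⟨v0, hv0⟩ := Pool.Agent.H42.Q1.verts_nonempty hδ h6 (q := B.qb) (le_max_right _ _)
    refine ⟨v0, hK3 (mem_Vn.2 ⟨_, mem_insert_self _ _, hv0⟩), ?_⟩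
    exact route hδ h6 hlev h1k h1k (fun q hq v hv _ => mem_Vn.2 ⟨q, hq, hv⟩) hq
      (fam_conn hF hq) hvq (hno v) hv0 (hno v0)
  · obtain ⟨u, hu, hu'⟩ := hmet
    exact ⟨u, hu, star_mono hCV hu'⟩
  · intro c hc1 hc2 hc3
    rcases h2 ω hω t ht hunm K hK3 (fun v hv => (hK4 v hv).imp_right And.right) c hc1 hc2 hc3
      with h | h | h
    · exact Or.inl h
    · exact Or.inr (Or.inl h)
    · refine Or.inr (Or.inr (near_of_dist hδ h.le ?_))
      rw [hρbd]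
      push_cast
      have : 2 * (s / 20) = s / 10 := by ring
      rw [this]
      linarith [Int.le_ceil (s / 10 / A.δ n)]
  · intro κ P Dd g g' p r hG hr hs hg hg' hco _ v hv
    refine h3 p (vx g) r ?_ hg hco v hv
    rcases hr with hr | ⟨hr, -⟩ <;> rw [hr] <;> push_cast <;> nlinarith
  · rw [Int.le_floor, le_div_iff₀ hδ]
    push_cast
    nlinarith
  · rw [Int.le_floor, le_div_iff₀ hδ]
    push_cast
    nlinarith

theorem okB_of_gateB (hD : Bornology.IsBounded D) (hne : D.Nonempty)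
    (hA : IsArcs D a b A₁ A₂) (A : Approx D a b A₁ A₂) {r0 : ℝ} (B : Base A r0)
    (hG : StGateB B) : StOkB B := by
  classical
  intro r hr θ hθ k1 C hF
  obtain ⟨δ0, hDec⟩ := dec_half
  have hδ0 := (hDec 0).2.1
  have hδ1 := (hDec 0).2.2.1
  obtain ⟨m, hm⟩ := pieces_bound_Pr hD hne hA A (ρ := r / 100) (by positivity) (ε := θ / 2)
    (by positivity)
  have hlog : 0 ≤ Real.log (1 / δ0) := Real.log_nonneg (by
    rw [one_div]; exact (one_le_inv₀ hδ0).2 hδ1.le)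
  obtain ⟨k, hk⟩ : ∃ k : ℕ, ((m : ℝ) + 1) * (2 * ((1 - δ0) ^ k * Real.log (1 / δ0))) ≤ θ / 2 := by
    have hc : 0 < ((m : ℝ) + 1) * 2 * (Real.log (1 / δ0) + 1) := by positivity
    obtain ⟨k, hk⟩ := exists_pow_lt_of_lt_one
      (show 0 < θ / 2 / (((m : ℝ) + 1) * 2 * (Real.log (1 / δ0) + 1)) by positivity)
      (by linarith : 1 - δ0 < 1)
    refine ⟨k, ?_⟩
    rw [lt_div_iff₀ hc] at hk
    have h0 : 0 ≤ (1 - δ0) ^ k := pow_nonneg (by linarith) k
    have h1 : 0 ≤ ((m : ℝ) + 1) * 2 * (1 - δ0) ^ k := by positivity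
    nlinarith
  obtain ⟨k00, hk00⟩ := hG (r / (1000 * 4 ^ k)) (by positivity) k1 C hF
  refine ⟨k00, fun k0 hk0 => ?_⟩
  have e2 : ∀ᶠ n in atTop, A.δ n < r / (10000 * 4 ^ k) :=
    A.lim.eventually_lt_const (by positivity)
  filter_upwards [hk00 k0 hk0, hm, e2] with n h1 h2 h3
  have hδ := A.pos n
  have h3' : A.δ n * (10000 * 4 ^ k) ≤ r := by
    rw [lt_div_iff₀ (by positivity)] at h3
    exact h3.le
  set δ := A.δ n with hδd
  set R : ℤ := ⌈r / 100 / δ⌉ with hR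
  set κ : ℤ := ⌊r / (1000 * 4 ^ k) / δ⌋ with hκ
  have hRpos : 0 < R := by rw [hR]; exact Int.ceil_pos.2 (by positivity)
  have hκ0 : 0 ≤ κ := by rw [hκ]; exact Int.floor_nonneg.2 (by positivity)
  have h4 : (1 : ℤ) ≤ 4 ^ k := one_le_pow₀ (by norm_num)
  set r1' : ℤ := 4 ^ k * (2 * κ + 2 + 2) + 1 + R with hr1'
  set r2' : ℤ := 4 * (r1' + 2) + 1 with hr2'
  have hr1pos : 0 ≤ r1' := by positivity
  have hbound := scales hr hδ h3' hR hκ
  rw [← hr1', ← hr2'] at hbound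
  set N : ℤ := max (4 ^ k * (2 * κ + 2 + 2)) (4 * (r1' + 2)) with hN
  have hE : ∀ e ∈ (X0 A n).E, (e.1 + e.2) % 2 = 1 := Pool.Agent.H28.Q1.odd_toDEnv _
  have hbadP := badM_union (hDec N) (X := X0 A n) hE (R := R) (r := 2 * κ + 2) (r1 := r1')
    (r2 := r2') (k := k) (by omega) hr1pos (le_max_left _ _) (le_max_right _ _) le_rfl le_rfl m
  rw [PrP_half] at hbadP
  have hEL : (X0 A n).E = Pool.Agent.H69.Q1.EL (A.X n) := toDEnv_E _
  rw [← hEL] at h2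
  refine le_trans (Pool.Agent.H75.Perc.Pr_mono (B := fun ω =>
    Seq (fun a b => r / 100 ≤ dist
        (pt (A.δ n) (vx ((A.X n).toDEnv.cor ω b))) (pt (A.δ n) (vx ((A.X n).toDEnv.cor ω a))))
        m ((A.X n).toDEnv.len ω) ∨ ∃ i ≤ m, BadM (X0 A n) R (2 * κ + 2) r1' r2' i ω)
      fun ω hω h => ?_) ((Pool.Agent.H75.Perc.Pr_or_le _ _ _).trans ?_)
  · by_contra hcon
    rw [not_or] at hcon
    obtain ⟨hc1, hc2⟩ := hcon
    push Not at hc2
    obtain ⟨hω', t, ht, hMid1, hMid2, hOk⟩ := h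
    have hMid : Mid B C n ω t := ⟨ht, hMid1, hMid2⟩
    apply hOk
    refine ok_of_gateAt (Pool.Agent.H28.Q1.inv_toDEnv _) hω' hMid.1 hκ0 (h1 ω hω' t hMid) hRpos
      (r1 := r1') (r2 := r2') ?_ ?_ (m := m) ?_ hc2 hbound
    · have : 2 * κ + 2 + 2 ≤ 4 ^ k * (2 * κ + 2 + 2) := le_mul_of_one_le_left (by omega) h4
      omega
    · omega
    · intro i s hs hMac
      by_contra hcon
      push Not at hcon
      apply hc1
      have hle := hMid.1
      refine Seq.le hcon.le (Seq.mono_N (hs.trans hle) (seq_of_mac (fun u v _ huv => ?_) i hMac))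
      refine le_trans ?_ (dist_of_far hδ huv)
      have := Int.le_ceil (r / 100 / δ)
      rw [div_le_iff₀ hδ] at this
      rw [hR]
      linarith
  · linarith


/-- **The target is near, for a fixed base.** -/
theorem stOkB (hD : IsJordanDomain D) (hA : IsArcs D a b A₁ A₂) (A : Approx D a b A₁ A₂)
    {r0 : ℝ} (B : Base A r0) : StOkB B :=
  okB_of_gateB hD.2.2.1 hD.2.1.nonempty hA A B (gateB_of_typ hD.1 hD.2.2.1 hA A (stTyp hD hA A) B)

end Pool.Agent.H79.M7
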