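import Mathlib
import Pool.Agent.H82.Q1.M7.Iface
import Pool.Agent.H79.M7.GainOk

set_option autoImplicit false
open Finset Filter Topology

/-! # Medium cells

`mverts δ o q` : vertices of the medium cell of `q`. `med_conn` : the vertices of the medium cells of
the visible cells are joined to the base cell by labels at these vertices and at the base cell. -/

namespace Pool.Agent.H79.M7

open Pool.Agent.H75.Perc Pool.Agent.H75.TwoArm Pool.Agent.H75.Four Pool.Agent.H69.Q1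
open Pool.Agent.H81.Q1 (pt DDomain Approx IsJordanDomain IsArcs)
open Pool.Agent.Q1.M3
open Pool.Agent.H82.Q1.M7 (medc Gain StGain)
open Pool.Agent.H42.Q1 (co_row' co_col' mesh_eq mesh_succ)

/-- The open rectangle of vertices. -/
def Rct (δ x1 x2 y1 y2 : ℝ) (v : ℤ × ℤ) : Prop :=
  (x1 < δ * v.1 ∧ δ * v.1 < x2) ∧ y1 < δ * v.2 ∧ δ * v.2 < y2

lemma btw {δ x1 x2 : ℝ} (hδ : 0 < δ) {a b t : ℤ} (ha : x1 < δ * a ∧ δ * a < x2)
    (hb : x1 < δ * b ∧ δ * b < x2) (h1 : min a b ≤ t) (h2 : t ≤ max a b) :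
    x1 < δ * t ∧ δ * t < x2 := by
  have key : ∀ c d : ℤ, c ≤ d → δ * (c : ℝ) ≤ δ * d := fun c d h =>
    mul_le_mul_of_nonneg_left (by exact_mod_cast h) hδ.le
  rcases le_total a b with h | h
  · rw [min_eq_left h] at h1
    rw [max_eq_right h] at h2
    exact ⟨ha.1.trans_le (key _ _ h1), (key _ _ h2).trans_lt hb.2⟩
  · rw [min_eq_right h] at h1
    rw [max_eq_left h] at h2
    exact ⟨hb.1.trans_le (key _ _ h1), (key _ _ h2).trans_lt ha.2⟩

/-- Rectangles are connected. -/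
lemma rct_conn {δ x1 x2 y1 y2 : ℝ} (hδ : 0 < δ) {K : Finset (ℤ × ℤ)}
    (hK : ∀ v, Rct δ x1 x2 y1 y2 v → v ∈ K) {u w : ℤ × ℤ} (hu : Rct δ x1 x2 y1 y2 u)
    (hw : Rct δ x1 x2 y1 y2 w) : Co (kap K) u w := by
  obtain ⟨u1, u2⟩ := u
  obtain ⟨w1, w2⟩ := w
  refine (co_row' (x' := w1) fun t h1 h2 => hK _ ⟨btw hδ hu.1 hw.1 h1 h2, hu.2⟩).trans
    (co_col' fun t h1 h2 => hK _ ⟨hw.1, btw hδ hu.2 hw.2 h1 h2⟩)

/-- an integer in an interval -/
lemma exists_int {δ x1 x2 : ℝ} (hδ : 0 < δ) (h : x1 + δ < x2) : ∃ t : ℤ, x1 < δ * t ∧ δ * t < x2 := by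
  refine ⟨⌊x1 / δ⌋ + 1, ?_, ?_⟩
  · have := Int.lt_floor_add_one (x1 / δ)
    rw [div_lt_iff₀ hδ] at this
    push_cast
    linarith
  · have := Int.floor_le (x1 / δ)
    rw [le_div_iff₀ hδ] at this
    push_cast
    linarith

section

variable {δ : ℝ} {o : ℂ}

open Classical in
/-- The vertices of the medium cell. -/
noncomputable def mverts (δ : ℝ) (o : ℂ) (q : Cell) : Finset (ℤ × ℤ) :=
  (verts δ o q).filter fun v => pt δ v ∈ medc o q

lemma medc_sub_fat (q : Cell) : medc o q ⊆ fat o q := by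
  rintro z ⟨h1, h2, h3, h4⟩
  have hm := mesh_pos q.1
  refine ⟨?_, ?_, ?_, ?_⟩ <;> nlinarith

lemma mem_mverts (hδ : 0 < δ) {q : Cell} {v : ℤ × ℤ} : v ∈ mverts δ o q ↔ pt δ v ∈ medc o q := by
  classical
  unfold mverts
  rw [mem_filter, mem_verts hδ]
  exact ⟨fun h => h.2, fun h => ⟨medc_sub_fat q h, h⟩⟩

lemma mverts_rct (hδ : 0 < δ) {q : Cell} {v : ℤ × ℤ} : v ∈ mverts δ o q ↔
    Rct δ (o.re + (q.2.1 - 1 / 6) * mesh q.1) (o.re + (q.2.1 + 7 / 6) * mesh q.1)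
      (o.im + (q.2.2 - 1 / 6) * mesh q.1) (o.im + (q.2.2 + 7 / 6) * mesh q.1) v := by
  rw [mem_mverts hδ]
  unfold medc Rct pt
  simp only [Set.mem_ofPred_eq]
  tauto

lemma verts_rct (hδ : 0 < δ) {q : Cell} {v : ℤ × ℤ} : v ∈ verts δ o q ↔
    Rct δ (o.re + (q.2.1 - 1 / 3) * mesh q.1) (o.re + (q.2.1 + 4 / 3) * mesh q.1)
      (o.im + (q.2.2 - 1 / 3) * mesh q.1) (o.im + (q.2.2 + 4 / 3) * mesh q.1) v := by
  rw [mem_verts hδ]
  unfold fat Rct pt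
  simp only [Set.mem_ofPred_eq]
  tauto

lemma mverts_conn (hδ : 0 < δ) {q : Cell} {K : Finset (ℤ × ℤ)} (hK : mverts δ o q ⊆ K)
    {u w : ℤ × ℤ} (hu : u ∈ mverts δ o q) (hw : w ∈ mverts δ o q) : Co (kap K) u w :=
  rct_conn hδ (fun _ hv => hK ((mverts_rct hδ).2 hv)) ((mverts_rct hδ).1 hu) ((mverts_rct hδ).1 hw)

lemma verts_conn (hδ : 0 < δ) {q : Cell} {K : Finset (ℤ × ℤ)} (hK : verts δ o q ⊆ K)
    {u w : ℤ × ℤ} (hu : u ∈ verts δ o q) (hw : w ∈ verts δ o q) : Co (kap K) u w :=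
  rct_conn hδ (fun _ hv => hK ((verts_rct hδ).2 hv)) ((verts_rct hδ).1 hu) ((verts_rct hδ).1 hw)

lemma mverts_nonempty (hδ : 0 < δ) {q : Cell} (hδq : δ < mesh q.1) : ∃ v, v ∈ mverts δ o q := by
  have hm := mesh_pos q.1
  obtain ⟨x, hx⟩ := exists_int (x1 := o.re + (q.2.1 - 1 / 6) * mesh q.1)
    (x2 := o.re + (q.2.1 + 7 / 6) * mesh q.1) hδ (by nlinarith)
  obtain ⟨y, hy⟩ := exists_int (x1 := o.im + (q.2.2 - 1 / 6) * mesh q.1)
    (x2 := o.im + (q.2.2 + 7 / 6) * mesh q.1) hδ (by nlinarith)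
  exact ⟨(x, y), (mverts_rct hδ).2 ⟨hx, hy⟩⟩

/-- Overlap of medium cells with the adjacent cells of the same level or with fat cells of a coarser
level, in one coordinate. -/
lemma overlap_med {k l : ℕ} (hl : l ≤ k) (hδ : 0 < δ) (hδk : δ < mesh k / 6) {i i' : ℤ} {x o : ℝ}
    (h1 : o + (i - 1 / 3) * mesh k < x) (h2 : x < o + (i + 4 / 3) * mesh k)
    (h3 : o + (i' - 1 / 3) * mesh l < x) (h4 : x < o + (i' + 4 / 3) * mesh l) :
    ∃ t : ℤ, (o + (i - 1 / 6) * mesh k < δ * t ∧ δ * t < o + (i + 7 / 6) * mesh k) ∧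
      (o + (i' - 1 / 3) * mesh l < δ * t ∧ δ * t < o + (i' + 4 / 3) * mesh l) := by
  have hm := mesh_pos k
  -- endpoints of the fat cell of level `l` in units of `mesh (k + 1)`
  have e1 : ∃ A : ℤ, (k = l → A = 3 * i' - 1) ∧ (k ≠ l → ∃ A', A = 3 * A') ∧
      (i' - 1 / 3) * mesh l = A / 3 * mesh k := by
    rcases Nat.eq_or_lt_of_le hl with h | h
    · subst h
      exact ⟨3 * i' - 1, fun _ => rfl, fun h => absurd rfl h, by push_cast; ring⟩
    · obtain ⟨m, rfl⟩ := Nat.exists_eq_add_of_lt h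
      refine ⟨3 * ((3 * i' - 1) * 3 ^ m), fun h => by omega, fun _ => ⟨_, rfl⟩, ?_⟩
      rw [mesh_eq (show l ≤ l + m + 1 by omega), show l + m + 1 - l = m + 1 by omega]
      push_cast
      ring
  have e2 : ∃ A : ℤ, (k = l → A = 3 * i' + 4) ∧ (k ≠ l → ∃ A', A = 3 * A') ∧
      (i' + 4 / 3) * mesh l = A / 3 * mesh k := by
    rcases Nat.eq_or_lt_of_le hl with h | h
    · subst h
      exact ⟨3 * i' + 4, fun _ => rfl, fun h => absurd rfl h, by push_cast; ring⟩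
    · obtain ⟨m, rfl⟩ := Nat.exists_eq_add_of_lt h
      refine ⟨3 * ((3 * i' + 4) * 3 ^ m), fun h => by omega, fun _ => ⟨_, rfl⟩, ?_⟩
      rw [mesh_eq (show l ≤ l + m + 1 by omega), show l + m + 1 - l = m + 1 by omega]
      push_cast
      ring
  obtain ⟨A, hA1, hA2, hA⟩ := e1
  obtain ⟨C, hC1, hC2, hC⟩ := e2
  rw [hA] at h3 ⊢
  rw [hC] at h4 ⊢
  have f1 : A < 3 * i + 4 := by
    have : ((A : ℤ) : ℝ) < ((3 * i + 4 : ℤ) : ℝ) := by
      push_cast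
      have h5 : (A : ℝ) / 3 * mesh k < (i + 4 / 3) * mesh k := by linarith
      have h6 := lt_of_mul_lt_mul_right h5 hm.le
      linarith
    exact_mod_cast this
  have f2 : 3 * i - 1 < C := by
    have : ((3 * i - 1 : ℤ) : ℝ) < ((C : ℤ) : ℝ) := by
      push_cast
      have h5 : ((i : ℝ) - 1 / 3) * mesh k < (C : ℝ) / 3 * mesh k := by linarith
      have h6 := lt_of_mul_lt_mul_right h5 hm.le
      linarith
    exact_mod_cast this
  have f3 : A < C := by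
    have : ((A : ℤ) : ℝ) < ((C : ℤ) : ℝ) := by
      have h5 : (A : ℝ) / 3 * mesh k < (C : ℝ) / 3 * mesh k := by linarith
      have h6 := lt_of_mul_lt_mul_right h5 hm.le
      linarith
    exact_mod_cast this
  have f4 : A ≤ 3 * i + 3 := by
    by_cases h : k = l
    · have := hA1 h; omega
    · obtain ⟨A', hA'⟩ := hA2 h; omega
  have f5 : 3 * i ≤ C := by
    by_cases h : k = l
    · have := hC1 h; omega
    · obtain ⟨A', hA'⟩ := hC2 h; omega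
  have g3 : (A : ℝ) + 1 ≤ C := by exact_mod_cast f3
  have g4 : (A : ℝ) ≤ 3 * i + 3 := by exact_mod_cast f4
  have g5 : (3 : ℝ) * i ≤ C := by exact_mod_cast f5
  obtain ⟨t, ht1, ht2⟩ := exists_int (δ := δ)
    (x1 := o + max ((i : ℝ) - 1 / 6) (A / 3) * mesh k)
    (x2 := o + min ((i : ℝ) + 7 / 6) (C / 3) * mesh k) hδ (by
      have : max ((i : ℝ) - 1 / 6) (A / 3) + 1 / 6 ≤ min ((i : ℝ) + 7 / 6) (C / 3) := by
        rw [max_add, le_min_iff, max_le_iff, max_le_iff]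
        refine ⟨⟨by linarith, by linarith⟩, by linarith, by linarith⟩
      have := mul_le_mul_of_nonneg_right this hm.le
      linarith)
  have m1 := mul_le_mul_of_nonneg_right (le_max_left ((i : ℝ) - 1 / 6) (A / 3)) hm.le
  have m2 := mul_le_mul_of_nonneg_right (le_max_right ((i : ℝ) - 1 / 6) (A / 3)) hm.le
  have m3 := mul_le_mul_of_nonneg_right (min_le_left ((i : ℝ) + 7 / 6) (C / 3)) hm.le
  have m4 := mul_le_mul_of_nonneg_right (min_le_right ((i : ℝ) + 7 / 6) (C / 3)) hm.le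
  exact ⟨t, ⟨by linarith, by linarith⟩, by linarith, by linarith⟩

/-- Adjacent medium cells of one level. -/
lemma overlap_mm {k : ℕ} (hδ : 0 < δ) (hδk : δ < mesh k / 6) {i i' : ℤ} {x o : ℝ}
    (h1 : o + (i - 1 / 3) * mesh k < x) (h2 : x < o + (i + 4 / 3) * mesh k)
    (h3 : o + (i' - 1 / 3) * mesh k < x) (h4 : x < o + (i' + 4 / 3) * mesh k) :
    ∃ t : ℤ, (o + (i - 1 / 6) * mesh k < δ * t ∧ δ * t < o + (i + 7 / 6) * mesh k) ∧
      (o + (i' - 1 / 6) * mesh k < δ * t ∧ δ * t < o + (i' + 7 / 6) * mesh k) := by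
  have hm := mesh_pos k
  have f1 : i' ≤ i + 1 := by
    have : ((i' : ℤ) : ℝ) < ((i + 2 : ℤ) : ℝ) := by
      push_cast
      have h5 : ((i' : ℝ) - 1 / 3) * mesh k < (i + 4 / 3) * mesh k := by linarith
      have h6 := lt_of_mul_lt_mul_right h5 hm.le
      linarith
    have : i' < i + 2 := by exact_mod_cast this
    omega
  have f2 : i ≤ i' + 1 := by
    have : ((i : ℤ) : ℝ) < ((i' + 2 : ℤ) : ℝ) := by
      push_cast
      have h5 : ((i : ℝ) - 1 / 3) * mesh k < (i' + 4 / 3) * mesh k := by linarith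
      have h6 := lt_of_mul_lt_mul_right h5 hm.le
      linarith
    have : i < i' + 2 := by exact_mod_cast this
    omega
  have g1 : (i' : ℝ) ≤ i + 1 := by exact_mod_cast f1
  have g2 : (i : ℝ) ≤ i' + 1 := by exact_mod_cast f2
  obtain ⟨t, ht1, ht2⟩ := exists_int (δ := δ)
    (x1 := o + max ((i : ℝ) - 1 / 6) (i' - 1 / 6) * mesh k)
    (x2 := o + min ((i : ℝ) + 7 / 6) (i' + 7 / 6) * mesh k) hδ (by
      have : max ((i : ℝ) - 1 / 6) (i' - 1 / 6) + 1 / 6 ≤ min ((i : ℝ) + 7 / 6) (i' + 7 / 6) := by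
        rw [max_add, le_min_iff, max_le_iff, max_le_iff]
        refine ⟨⟨by linarith, by linarith⟩, by linarith, by linarith⟩
      have := mul_le_mul_of_nonneg_right this hm.le
      linarith)
  have m1 := mul_le_mul_of_nonneg_right (le_max_left ((i : ℝ) - 1 / 6) (i' - 1 / 6)) hm.le
  have m2 := mul_le_mul_of_nonneg_right (le_max_right ((i : ℝ) - 1 / 6) (i' - 1 / 6)) hm.le
  have m3 := mul_le_mul_of_nonneg_right (min_le_left ((i : ℝ) + 7 / 6) (i' + 7 / 6)) hm.le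
  have m4 := mul_le_mul_of_nonneg_right (min_le_right ((i : ℝ) + 7 / 6) (i' + 7 / 6)) hm.le
  exact ⟨t, ⟨by linarith, by linarith⟩, by linarith, by linarith⟩

lemma adj_mverts (hδ : 0 < δ) {q q' : Cell} (hq : q.1 = q'.1) (hδk : δ < mesh q.1 / 6)
    (h : AdjC o q q') : ∃ v, v ∈ mverts δ o q ∧ v ∈ mverts δ o q' := by
  obtain ⟨z, ⟨h1, h2, h3, h4⟩, g1, g2, g3, g4⟩ := h
  rw [← hq] at g1 g2 g3 g4
  obtain ⟨x, hx, hx'⟩ := overlap_mm hδ hδk h1 h2 g1 g2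
  obtain ⟨y, hy, hy'⟩ := overlap_mm hδ hδk h3 h4 g3 g4
  refine ⟨(x, y), (mverts_rct hδ).2 ⟨hx, hy⟩, (mverts_rct hδ).2 ?_⟩
  rw [← hq]
  exact ⟨hx', hy'⟩

lemma adj_verts (hδ : 0 < δ) {q q' : Cell} (hq : q'.1 ≤ q.1) (hδk : δ < mesh q.1 / 6)
    (h : AdjC o q q') : ∃ v, v ∈ mverts δ o q ∧ v ∈ verts δ o q' := by
  obtain ⟨z, ⟨h1, h2, h3, h4⟩, g1, g2, g3, g4⟩ := h
  obtain ⟨x, hx, hx'⟩ := overlap_med hq hδ hδk h1 h2 g1 g2
  obtain ⟨y, hy, hy'⟩ := overlap_med hq hδ hδk h3 h4 g3 g4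
  exact ⟨(x, y), (mverts_rct hδ).2 ⟨hx, hy⟩, (verts_rct hδ).2 ⟨hx', hy'⟩⟩

/-- Medium vertices of a family. -/
noncomputable def Mn (δ : ℝ) (o : ℂ) (C : Finset Cell) : Finset (ℤ × ℤ) := C.biUnion (mverts δ o)

lemma mem_Mn {C : Finset Cell} {v : ℤ × ℤ} : v ∈ Mn δ o C ↔ ∃ q ∈ C, v ∈ mverts δ o q :=
  mem_biUnion

lemma Mn_mono {C C' : Finset Cell} (h : C ⊆ C') : Mn δ o C ⊆ Mn δ o C' :=
  biUnion_subset_biUnion_of_subset_left _ h

lemma mverts_sub (q : Cell) : mverts δ o q ⊆ verts δ o q := by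
  classical
  unfold mverts
  exact filter_subset _ _

lemma Mn_sub {C : Finset Cell} : Mn δ o C ⊆ Vn δ o C := by
  intro v hv
  obtain ⟨q, hq, h⟩ := mem_Mn.1 hv
  exact mem_Vn.2 ⟨q, hq, mverts_sub q h⟩

/-- **The medium vertices of the visible cells are joined to the base cell.** -/
theorem med_conn {D : Set ℂ} (hD : Bornology.IsBounded D) {b : Cell} {k : ℕ}
    {E : Finset (ℤ × ℤ)} (hb : b.1 ≤ k) (hδ : 0 < δ) (hδk : δ < mesh k / 6) {K : Finset (ℤ × ℤ)}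
    (hK : Mn δ o (Uk D δ o b k E) ⊆ K) (hKb : verts δ o b ⊆ K) {q : Cell}
    (hq : q ∈ Uk D δ o b k E) {v w : ℤ × ℤ} (hv : v ∈ mverts δ o q) (hw : w ∈ verts δ o b) :
    Co (kap K) v w := by
  have hKq : ∀ q ∈ Uk D δ o b k E, mverts δ o q ⊆ K := fun q hq v hv => hK (mem_Mn.2 ⟨q, hq, hv⟩)
  rw [mem_Uk hD] at hq
  refine ConnC.induct (P := fun q => q ∈ Uk D δ o b k E → ∀ v ∈ mverts δ o q, Co (kap K) v w)
    ?_ ?_ hq ((mem_Uk hD).2 hq) v hv
  · intro q h1 _ h3 h4 v hv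
    obtain ⟨u, hu1, hu2⟩ := adj_verts hδ (by rw [h1]; exact hb) (by rw [h1]; exact hδk) h3
    exact (mverts_conn hδ (hKq q h4) hv hu1).trans (verts_conn hδ hKb hu2 hw)
  · intro q q' h1 h2 h3 h4 ih h5 v hv
    have h6 : q' ∈ Uk D δ o b k E := (mem_Uk hD).2 h4
    obtain ⟨u, hu1, hu2⟩ := adj_mverts hδ (by rw [h1, h4.head.1]) (by rw [h1]; exact hδk) h3
    exact (mverts_conn hδ (hKq q h5) hv hu1).trans (ih h6 u hu2)

end

end Pool.Agent.H79.M7
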