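import Mathlib
import Pool.Agent.H79.M7.GainA

set_option autoImplicit false
open Finset Filter Topology

/-! # From the visible cells to the medium cells

`Tm B k n E` : labels at the medium vertices of the visible cells and at the barrier.
`okG_touch` : a tip which is about to meet a label at a visible cell is joined near the tip to `Tm`.
`two_stage` : an environment whose target `star F` is near meets `Tm` before it travels far, except with
small probability. -/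

namespace Pool.Agent.H79.M7

open Pool.Agent.H75.Perc Pool.Agent.H75.TwoArm Pool.Agent.H75.Four Pool.Agent.H99.NC
open Pool.Agent.H69.Q1 Pool.Agent.H39.Q1 Pool.Agent.H28.Q1
open Pool.Agent.H65.Dom hiding du_anti
open Pool.Agent.H81.Q1 (pt DDomain Approx IsJordanDomain IsArcs)
open Pool.Agent.Q1.M3
open Pool.Agent.H42.Q1 (co_row' co_col' mesh_eq mesh_succ)
open Pool.Agent.H75.TwoArm.StrandAux hiding vx_nxC

section

variable {D : Set ℂ} {a b : ℂ} {A₁ A₂ : Set ℂ} {A : Approx D a b A₁ A₂} {r0 : ℝ} (B : Base A r0)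

/-- The target: labels at the medium vertices of the visible cells and at the barrier. -/
noncomputable def Tm (k n : ℕ) (E : Finset (ℤ × ℤ)) : Finset (ℤ × ℤ) :=
  star (Mn (A.δ n) B.o (Uk D (A.δ n) B.o B.qb k E) ∪ B.N n)

/-- The labels used to reach the final vertex. -/
noncomputable def Km (k n : ℕ) (E : Finset (ℤ × ℤ)) : Finset (ℤ × ℤ) :=
  star (Mn (A.δ n) B.o (Uk D (A.δ n) B.o B.qb k E)) ∪
    (kap (B.N n) ∩ ((X0 A n).E ∪ (X0 A n).W))

lemma Uk_anti (hD : Bornology.IsBounded D) {δ : ℝ} {o : ℂ} {q : Cell} {k : ℕ}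
    {F F' : Finset (ℤ × ℤ)} (h : F' ⊆ F) : Uk D δ o q k F' ⊆ Uk D δ o q k F := by
  intro x hx
  rw [mem_Uk hD] at hx ⊢
  exact hx.mono fun y => Free.mono h

lemma Tm_anti (hD : Bornology.IsBounded D) (k n : ℕ) {F F' : Finset (ℤ × ℤ)} (h : F' ⊆ F) :
    Tm B k n F' ⊆ Tm B k n F :=
  star_mono (union_subset_union_left (Mn_mono (Uk_anti hD h)))

lemma Km_sub (k n : ℕ) (E : Finset (ℤ × ℤ)) : Km B k n E ⊆ Tm B k n E := by
  unfold Km Tm
  rw [star_union]
  exact union_subset_union_right (inter_subset_left.trans (filter_subset _ _))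

lemma kap_sub_star (K : Finset (ℤ × ℤ)) : kap K ⊆ star K := filter_subset _ _

/-- the vertex of a corner whose label is in `kap K` -/
lemma vx_of_kap {K : Finset (ℤ × ℤ)} {c : ℤ × ℤ} (h : plab c ∈ kap K) : vx c ∈ K := by
  have ho := odd_star1 (plab_star1 c)
  rw [mem_kap_iff ho] at h
  rcases (mem_star1_iff ho).1 (plab_star1 c) with h1 | h1
  · rw [h1]; exact h.1
  · rw [h1]; exact h.2

/-- vertices of a fat cell are near each other -/
lemma near_verts {δ : ℝ} (hδ : 0 < δ) {o : ℂ} {q : Cell} {u v : ℤ × ℤ} {r : ℤ}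
    (hr : 2 * mesh q.1 / δ ≤ r) (hu : u ∈ verts δ o q) (hv : v ∈ verts δ o q) : Near r u v := by
  obtain ⟨⟨a1, a2⟩, a3, a4⟩ := (verts_rct hδ).1 hu
  obtain ⟨⟨b1, b2⟩, b3, b4⟩ := (verts_rct hδ).1 hv
  have hm := mesh_pos q.1
  rw [div_le_iff₀ hδ] at hr
  have key : ∀ x y : ℤ, |δ * x - δ * y| ≤ 2 * mesh q.1 → |x - y| ≤ r := by
    intro x y h
    rw [← mul_sub, abs_mul, abs_of_pos hδ] at h
    have h1 : δ * |(x : ℝ) - y| ≤ δ * r := by linarith
    have h2 := le_of_mul_le_mul_left h1 hδ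
    exact_mod_cast h2
  refine ⟨key _ _ ?_, key _ _ ?_⟩ <;> rw [abs_le] <;> constructor <;> linarith

lemma near_of_star1 {e v w : ℤ × ℤ} (hv : e ∈ star1 v) (hw : e ∈ star1 w) : Near 1 v w := by
  by_cases h : v = w
  · subst h; exact ⟨by simp, by simp⟩
  · obtain ⟨-, h1, -⟩ := star1_pair hv hw h
    simp only [dirs, mem_insert, mem_singleton, Prod.ext_iff, Prod.fst_sub, Prod.snd_sub] at h1
    unfold Near
    rw [abs_le, abs_le]
    omega

lemma co_of_star1 {L : Finset (ℤ × ℤ)} {e v w : ℤ × ℤ} (hv : e ∈ star1 v) (hw : e ∈ star1 w)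
    (he : e ∈ L) : Co L v w := by
  by_cases h : v = w
  · subst h; exact Co.refl _ _
  · obtain ⟨h1, h2, -⟩ := star1_pair hv hw h
    refine Relation.ReflTransGen.single ⟨?_, h1 ▸ he⟩
    simp only [dirs, mem_insert, mem_singleton] at h2
    unfold IsUnit4
    tauto

/-- **A tip at a visible cell is joined to the medium cells.** -/
theorem okG_touch (hD : Bornology.IsBounded D) {k n : ℕ} (hb : B.qb.1 ≤ k)
    (hδk : A.δ n < mesh k / 6) (hqb : verts (A.δ n) B.o B.qb ⊆ B.N n)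
    (hqE : star (verts (A.δ n) B.o B.qb) ⊆ (X0 A n).E)
    (hconn : ∀ u ∈ B.N n, ∀ v ∈ B.N n,
      Co (kap (B.N n) ∩ ((X0 A n).E ∪ (X0 A n).W)) u v) {E : Finset (ℤ × ℤ)} {Z : DEnv}
    (hβ : vx Z.β ∈ B.N n)
    (hZ1 : star (Vn (A.δ n) B.o (Uk D (A.δ n) B.o B.qb k E)) ⊆ Z.E)
    (ht : plab Z.α ∈ star (Vn (A.δ n) B.o (Uk D (A.δ n) B.o B.qb k E)))
    {r : ℤ} (hr : 2 * mesh k / A.δ n + 1 ≤ r) : OkG r (Km B k n E) (vx Z.α) Z := by
  have hδ := A.pos n
  have hm := mesh_pos k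
  obtain ⟨v, hv, hev⟩ := mem_star.1 ht
  obtain ⟨q, hq, hvq⟩ := mem_Vn.1 hv
  have hqk : q.1 = k := ((mem_Uk hD).1 hq).head.1
  have hkq : kap (verts (A.δ n) B.o q) ⊆ Z.E := by
    refine fun e he => hZ1 (star_mono ?_ (kap_sub_star _ he))
    intro w hw
    exact mem_Vn.2 ⟨q, hq, hw⟩
  have hr1 : 2 * mesh k / A.δ n ≤ ((r - 1 : ℤ) : ℝ) := by push_cast; linarith
  have hpos : (0 : ℝ) ≤ 2 * mesh k / A.δ n := by positivity
  have hr0 : (1 : ℤ) ≤ r := by
    have : (1 : ℝ) ≤ r := by linarith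
    exact_mod_cast this
  have hwv : Near 1 (vx Z.α) v := near_of_star1 (plab_star1 _) hev
  refine ⟨{plab Z.α} ∪ kap (verts (A.δ n) B.o q), ?_, ?_, ?_⟩
  · refine union_subset ?_ (hkq.trans subset_union_left)
    rw [singleton_subset_iff]
    exact mem_union_left _ (hZ1 ht)
  · intro c hc
    rcases mem_union.1 hc with h | h
    · rw [mem_singleton] at h
      have h1 := plab_star1 c
      rw [h] at h1
      exact (near_of_star1 (plab_star1 _) h1).mono hr0
    · have h1 := vx_of_kap h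
      have h2 := near_verts hδ (r := r - 1) (by rw [hqk]; exact hr1) hvq h1
      unfold Near at hwv h2 ⊢
      rw [abs_le, abs_le] at hwv h2 ⊢
      omega
  · obtain ⟨m, hm1⟩ := mverts_nonempty hδ (o := B.o) (q := q) (by rw [hqk]; linarith)
    have hmv := mverts_sub (δ := A.δ n) (o := B.o) q hm1
    obtain ⟨w0, hw0⟩ : ∃ w0, w0 ∈ verts (A.δ n) B.o B.qb := by
      have h1 : mesh k ≤ mesh B.qb.1 := pow_le_pow_of_le_one (by norm_num) (by norm_num) hb
      obtain ⟨w0, hw0⟩ := mverts_nonempty hδ (o := B.o) (q := B.qb) (by linarith)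
      exact ⟨w0, mverts_sub _ hw0⟩
    have h1 : Co ({plab Z.α} ∪ kap (verts (A.δ n) B.o q) ∪ Km B k n E) (vx Z.α) v :=
      co_of_star1 (plab_star1 _) hev (by simp)
    have h2 : Co ({plab Z.α} ∪ kap (verts (A.δ n) B.o q) ∪ Km B k n E) v m :=
      (verts_conn hδ (subset_refl _) hvq hmv).mono fun e he =>
        mem_union_left _ (mem_union_right _ he)
    have h3 : Co ({plab Z.α} ∪ kap (verts (A.δ n) B.o q) ∪ Km B k n E) m w0 := by
      refine (med_conn hD hb hδ hδk (K := Mn (A.δ n) B.o (Uk D (A.δ n) B.o B.qb k E) ∪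
        verts (A.δ n) B.o B.qb) subset_union_left subset_union_right hq hm1 hw0).mono ?_
      intro e he
      refine mem_union_right _ ?_
      have ho := odd_star ((kap_sub_star _) he)
      rw [mem_kap_iff ho] at he
      unfold Km
      rw [mem_union, mem_star_iff ho, mem_inter, mem_kap_iff ho]
      by_cases g : eu e ∈ Mn (A.δ n) B.o (Uk D (A.δ n) B.o B.qb k E) ∨
          ev e ∈ Mn (A.δ n) B.o (Uk D (A.δ n) B.o B.qb k E)
      · exact Or.inl g
      · right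
        push Not at g
        have g1 : eu e ∈ verts (A.δ n) B.o B.qb := (mem_union.1 he.1).resolve_left g.1
        have g2 : ev e ∈ verts (A.δ n) B.o B.qb := (mem_union.1 he.2).resolve_left g.2
        exact ⟨⟨hqb g1, hqb g2⟩, mem_union_left _ (hqE ((mem_star_iff ho).2 (Or.inl g1)))⟩
    have h4 : Co ({plab Z.α} ∪ kap (verts (A.δ n) B.o q) ∪ Km B k n E) w0 (vx Z.β) :=
      (hconn _ (hqb hw0) _ hβ).mono fun e he =>
        mem_union_right _ (mem_union_right _ he)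
    exact h1.trans (h2.trans (h3.trans h4))

/-- Regularity of the lattice for the level `k`. -/
structure MReg (k n : ℕ) : Prop where
  lev : B.qb.1 ≤ k
  mesh : A.δ n < Pool.Agent.Q1.M3.mesh k / 6
  qb : verts (A.δ n) B.o B.qb ⊆ B.N n
  free : star (verts (A.δ n) B.o B.qb) ⊆ (X0 A n).E
  conn : ∀ u ∈ B.N n, ∀ v ∈ B.N n, Co (kap (B.N n) ∩ ((X0 A n).E ∪ (X0 A n).W)) u v
  beta : vx (X0 A n).β ∈ B.N n

/-- The environments from which the medium cells are reached. -/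
def GM (k n : ℕ) (r : ℤ) (Y : DEnv) : Prop :=
  Ok r (star (B.F k n Y.E)) Y ∧ vx Y.β ∈ B.N n ∧
    kap (B.N n) ∩ ((X0 A n).E ∪ (X0 A n).W) ⊆ Y.E ∪ Y.W

lemma star_vis (hD : Bornology.IsBounded D) {δ : ℝ} {o : ℂ} {q : Cell} {k : ℕ}
    {E : Finset (ℤ × ℤ)} : star (Vn δ o (Uk D δ o q k E)) ⊆ E := by
  intro e he
  obtain ⟨v, hv, hev⟩ := mem_star.1 he
  obtain ⟨c, hc, hvc⟩ := mem_Vn.1 hv
  exact ((mem_Uk hD).1 hc).head.2.2 (star1_sub_star hvc hev)

/-- **Two stages.** -/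
theorem two_stage (hD : Bornology.IsBounded D) {k n : ℕ} (hR : MReg B k n) {δ0 : ℝ}
    {q : ℤ × ℤ → ℝ} {N : ℤ} (hDec : Dec q δ0 N) {Y : DEnv} (hI : Inv Y)
    (hE : ∀ e ∈ Y.E, (e.1 + e.2) % 2 = 1) {r r' s : ℤ} (hG : GM B k n r Y) (hr : 0 ≤ r)
    (hr' : 2 * mesh k / A.δ n + 1 ≤ r') {j : ℕ} (hN : 4 ^ j * (r + 2) ≤ N)
    (hN' : 4 ^ j * (r' + 2) ≤ N)
    (hs : (4 ^ j * (r + 2) + 1) + (4 ^ j * (r' + 2) + 1) ≤ s) :
    PrP q Y.E (Esc Y (Tm B k n Y.E) (vx Y.α) s) ≤ 6 * (1 - δ0) ^ j := by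
  obtain ⟨hOk, hβ, hkap⟩ := hG
  have hδ := A.pos n
  have hm := mesh_pos k
  have h40 : (1 : ℤ) ≤ 4 ^ j := one_le_pow₀ (by norm_num)
  have hpow : (0 : ℝ) ≤ (1 - δ0) ^ j := pow_nonneg (by linarith [hDec.2.2.1]) j
  have hr0' : 0 ≤ r' := by
    have h1 : (0 : ℝ) ≤ 2 * mesh k / A.δ n := by positivity
    have : (0 : ℝ) ≤ r' := by linarith
    exact_mod_cast this
  set s1 : ℤ := 4 ^ j * (r + 2) + 1 with hs1
  set s2 : ℤ := 4 ^ j * (r' + 2) + 1 with hs2
  have hs20 : 0 ≤ s2 := by positivity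
  set T1 := star (B.F k n Y.E) with hT1
  set U := Uk D (A.δ n) B.o B.qb k Y.E with hU
  have hT1' : T1 = star (Vn (A.δ n) B.o U) ∪ star (B.N n) := by
    rw [hT1]; unfold Base.F; rw [star_union]
  set Q := DEnv.hit (fun z => plab z ∈ T1) with hQdef
  have hQ : DEnv.Adapted Q := DEnv.adapted_hit _
  have st1 := ok_prob Y hDec hI hE hOk hr hN (s := s1) le_rfl
  have st2 := step_abs Y hDec.1 hI hE hQ
    (fun Z => vx Z.β ∈ B.N n ∧ star (Vn (A.δ n) B.o U) ⊆ Z.E ∧
      kap (B.N n) ∩ ((X0 A n).E ∪ (X0 A n).W) ⊆ Z.E ∪ Z.W ∧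
      plab Z.α ∈ star (Vn (A.δ n) B.o U)) (fun _ => Km B k n Y.E) (fun Z => vx Z.α) (s := s2)
    (θ := 2 * (1 - δ0) ^ j) (by positivity) (by
      rintro Z hZ hZE ⟨g1, g2, g3, g4⟩
      refine okG_prob Z hDec hZ hZE ?_ (okG_touch B hD hR.lev hR.mesh hR.qb hR.free hR.conn g1 g2 g4
        hr') hr0' ⟨by simp [hr0'], by simp [hr0']⟩ hN' le_rfl
      unfold Km
      exact union_subset (fun e he => mem_union_left _ (g2 (star_mono Mn_sub he))) g3)
  refine (PrP_mono hDec.1 (B := fun ω => Esc Y T1 (vx Y.α) s1 ω ∨ _) fun ω hω h => ?_).trans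
    ((PrP_or_le hDec.1 Y.E _ _).trans (le_of_le_of_eq (add_le_add st1 st2) (by ring)))
  obtain ⟨nn, hnn, hfar, hav⟩ := h
  have hKm := Km_sub B k n Y.E
  by_cases hmet : ∃ t < nn, plab (Y.cor ω t) ∈ T1
  · obtain ⟨t1, ht1, hP1⟩ := hmet
    have hτ1 : Y.tau Q ω ≤ t1 := Nat.sInf_le (Or.inl hP1)
    have hτP : plab (Y.cor ω (Y.tau Q ω)) ∈ T1 := by
      rcases Y.tau_spec (Q := Q) hω with h3 | h3
      · exact h3
      · exact absurd h3 (Y.cor_ne (by omega))
    have hmin : ∀ t < Y.tau Q ω, plab (Y.cor ω t) ∉ T1 := fun t ht => (Y.tau_min ht).1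
    by_cases hf : Far s1 (vx Y.α) (vx (Y.cor ω (Y.tau Q ω)))
    · left
      exact ⟨Y.tau Q ω, by omega, hf, hmin⟩
    · right
      have hfar2 : Far s2 (vx (Y.cor ω (Y.tau Q ω))) (vx (Y.cor ω nn)) := by
        have h1 : Far (s2 + s1) (vx (Y.cor ω nn)) (vx Y.α) := far_symm (hfar.mono (by omega))
        exact far_symm (far_split h1 fun h2 => hf (far_symm h2))
      refine ⟨hω, ⟨hβ, ?_, ?_, ?_⟩, nn, hnn, by omega, ?_, fun t _ ht h2 => hav t ht (hKm h2)⟩
      · rw [DEnv.after_E]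
        intro e he
        rw [Finset.mem_sdiff, Y.mem_exset]
        refine ⟨star_vis hD he, ?_⟩
        rintro ⟨-, t, ht, rfl⟩
        exact hmin t ht (by rw [hT1']; exact mem_union_left _ he)
      · intro e he
        have h1 := hkap he
        rw [DEnv.after_E, DEnv.after_W]
        rcases mem_union.1 h1 with h2 | h2
        · refine mem_union_left _ ?_
          rw [Finset.mem_sdiff, Y.mem_exset]
          refine ⟨h2, ?_⟩
          rintro ⟨-, t, ht, rfl⟩
          exact hmin t ht (by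
            rw [hT1']; exact mem_union_right _ (kap_sub_star _ (mem_inter.1 he).1))
        · exact mem_union_right _ (mem_union_left _ h2)
      · rw [DEnv.after_α]
        rw [hT1'] at hτP
        rcases mem_union.1 hτP with h2 | h2
        · exact h2
        · exfalso
          refine hav (Y.tau Q ω) (by omega) ?_
          unfold Tm
          rw [star_union]
          exact mem_union_right _ h2
      · rw [DEnv.after_α]
        exact hfar2
  · left
    push Not at hmet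
    exact ⟨nn, hnn, hfar.mono (by omega), hmet⟩

end

end Pool.Agent.H79.M7
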