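import Mathlib
import Pool.Agent.H79.M7.GainOk

set_option autoImplicit false
open Finset

/-! # Many attempts

`Mic R0 R i l t z` : `t` is the `l`-th time of a sequence of times of step size `R` started at the
`i`-th macroscopic time (size `R0`). `att_prob` : if each attempt fails with probability `≤ θ` then `N`
attempts fail with probability `≤ θ ^ N`. -/

namespace Pool.Agent.H79.M7

open Pool.Agent.H75.Perc Pool.Agent.H75.TwoArm Pool.Agent.H75.Four Pool.Agent.H99.NC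
open Pool.Agent.H69.Q1 Pool.Agent.H39.Q1 Pool.Agent.H28.Q1
open Pool.Agent.H65.Dom hiding du_anti
open Pool.Agent.H75.TwoArm.StrandAux hiding vx_nxC

/-- `t` is the `l`-th time of the sequence of step size `R` started at the `i`-th macroscopic time. -/
def Mic (R0 R : ℤ) (i : ℕ) : ℕ → ℕ → (ℕ → ℤ × ℤ) → Prop
  | 0, t, z => Mac R0 i t z
  | l + 1, t, z => ∃ u < t, Mic R0 R i l u z ∧ Far R (vx (z u)) (vx (z t)) ∧
      ∀ v, u < v → v < t → ¬ Far R (vx (z u)) (vx (z v))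

variable {R0 R : ℤ} {i : ℕ}

lemma mic_congr : ∀ (l t : ℕ) {z z' : ℕ → ℤ × ℤ}, (∀ j ≤ t, z j = z' j) →
    Mic R0 R i l t z → Mic R0 R i l t z' := by
  intro l
  induction l with
  | zero => intro t z z' h h1; exact mac_congr i t h h1
  | succ l ih =>
    intro t z z' hz h
    obtain ⟨u, hu, h1, h2, h3⟩ := h
    refine ⟨u, hu, ih u (fun j hj => hz j (by omega)) h1, ?_, ?_⟩
    · rw [← hz u hu.le, ← hz t le_rfl]; exact h2
    · intro v hv hv'
      rw [← hz u hu.le, ← hz v hv'.le]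
      exact h3 v hv hv'

lemma adapted_mic (l : ℕ) : DEnv.Adapted (fun t z => Mic R0 R i l t z) := fun t z z' h =>
  ⟨mic_congr l t h, mic_congr l t fun j hj => (h j hj).symm⟩

lemma mic_unique {z : ℕ → ℤ × ℤ} : ∀ (l : ℕ) {t t' : ℕ}, Mic R0 R i l t z → Mic R0 R i l t' z →
    t = t' := by
  intro l
  induction l with
  | zero => intro t t' h h'; exact mac_unique i h h'
  | succ l ih =>
    intro t t' h h'
    obtain ⟨u, hu, h1, h2, h3⟩ := h
    obtain ⟨u', hu', h1', h2', h3'⟩ := h'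
    have := ih h1 h1'
    subst this
    rcases lt_trichotomy t t' with h4 | h4 | h4
    · exact absurd h2 (h3' t hu h4)
    · exact h4
    · exact absurd h2' (h3 t' hu' h4)

lemma mac_le_mic {z : ℕ → ℤ × ℤ} : ∀ (l : ℕ) {t a : ℕ}, Mic R0 R i l t z → Mac R0 i a z →
    a ≤ t := by
  intro l
  induction l with
  | zero => intro t a h h'; exact (mac_unique i h' h).le
  | succ l ih =>
    intro t a h h'
    obtain ⟨u, hu, h1, -, -⟩ := h
    exact (ih h1 h').trans hu.le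

/-- Times of the sequence before a time at which the path is far away. -/
lemma mic_exists {z : ℕ → ℤ × ℤ} {a n : ℕ} (han : a ≤ n) (ha : Mac R0 i a z)
    (hstep : ∀ t, Near 1 (vx (z t)) (vx (z (t + 1)))) (hR : 0 < R) {N : ℕ}
    (hfar : Far (N * R + 1) (vx (z a)) (vx (z n))) :
    ∀ l ≤ N, ∃ t, a ≤ t ∧ t ≤ n ∧ Mic R0 R i l t z ∧ Near (l * R) (vx (z a)) (vx (z t)) := by
  classical
  intro l
  induction l with
  | zero => intro _; exact ⟨a, le_rfl, han, ha, by simp [Near]⟩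
  | succ l ih =>
    intro hl
    obtain ⟨t, h1, h2, h3, h4⟩ := ih (by omega)
    have hlN : ((l : ℤ) + 1) * R ≤ N * R := by
      have : ((l : ℤ) + 1) ≤ N := by exact_mod_cast hl
      exact mul_le_mul_of_nonneg_right this hR.le
    have hfar' : Far R (vx (z t)) (vx (z n)) := by
      unfold Far at hfar ⊢
      unfold Near at h4
      rw [abs_le, abs_le] at h4
      rw [le_abs, le_abs] at hfar ⊢
      have : ((l : ℤ) + 1) * R = l * R + R := by ring
      omega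
    have hne : t ≠ n := by
      rintro rfl
      unfold Far at hfar'
      simp only [sub_self, abs_zero] at hfar'
      omega
    have hex : ∃ v, t < v ∧ v ≤ n ∧ Far R (vx (z t)) (vx (z v)) := ⟨n, by omega, le_rfl, hfar'⟩
    set v := Nat.find hex with hv
    obtain ⟨g1, g2, g3⟩ := Nat.find_spec hex
    have hmin : ∀ w, t < w → w < v → ¬ Far R (vx (z t)) (vx (z w)) := fun w hw hw' h =>
      Nat.find_min hex hw' ⟨hw, by omega, h⟩
    refine ⟨v, by omega, g2, ⟨t, g1, h3, g3, hmin⟩, ?_⟩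
    have h5 : Near (R - 1) (vx (z t)) (vx (z (v - 1))) := by
      rcases Nat.eq_or_lt_of_le (show t ≤ v - 1 by omega) with h | h
      · rw [← h]
        exact ⟨by simp; omega, by simp; omega⟩
      · have h6 := hmin (v - 1) h (by omega)
        by_contra hcon
        rw [not_near, show R - 1 + 1 = R by ring] at hcon
        exact h6 hcon
    have h6 := hstep (v - 1)
    rw [Nat.sub_add_cancel (by omega)] at h6
    unfold Near at h4 h5 h6 ⊢
    push_cast
    rw [abs_le, abs_le] at h4 h5 h6 ⊢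
    have : ((l : ℤ) + 1) * R = l * R + R := by ring
    omega

section

variable (X : DEnv)

lemma tau_mic {l t : ℕ} {ω : Finset (ℤ × ℤ)} (hω : ω ⊆ X.E) (h : Mic R0 R i l t (X.cor ω))
    (ht : t ≤ X.len ω) : X.tau (fun t z => Mic R0 R i l t z) ω = t := by
  apply le_antisymm (Nat.sInf_le (Or.inl h))
  rcases X.tau_spec (Q := fun t z => Mic R0 R i l t z) hω with h1 | h1
  · exact (mic_unique l h1 h).ge
  · by_contra hcon
    push Not at hcon
    exact X.cor_ne (lt_of_lt_of_le hcon ht) h1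

/-- `l` attempts after the `i`-th macroscopic time failed. -/
def Att (T : Finset (ℤ × ℤ) → Finset (ℤ × ℤ)) (G : DEnv → Prop) (R0 R : ℤ) (i l : ℕ)
    (ω : Finset (ℤ × ℤ)) : Prop :=
  ∃ hω : ω ⊆ X.E, ∃ a t, Mac R0 i a (X.cor ω) ∧ Mic R0 R i l t (X.cor ω) ∧ t ≤ X.len ω ∧
    (∀ u, a ≤ u → u < t → plab (X.cor ω u) ∉ T (fresh X ω a)) ∧
    ∀ u, a ≤ u → u ≤ t → (∃ j ≤ l, Mic R0 R i j u (X.cor ω)) → G (envt X ω hω u)

variable {X}

lemma fresh_congr {ω ω' : Finset (ℤ × ℤ)} {u : ℕ} (h : ∀ j ≤ u, X.cor ω' j = X.cor ω j) :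
    fresh X ω' u = fresh X ω u := by
  ext e
  rw [mem_fresh, mem_fresh]
  refine and_congr_right fun _ => ?_
  constructor
  · intro h1 k hk
    rw [← h k hk.le]; exact h1 k hk
  · intro h1 k hk
    rw [h k hk.le]; exact h1 k hk

/-- **Attempts.** -/
theorem att_step {q : ℤ × ℤ → ℝ} (hq : Pb q) (hI : Inv X) (hE : ∀ e ∈ X.E, (e.1 + e.2) % 2 = 1)
    (hR : 0 < R) (T : Finset (ℤ × ℤ) → Finset (ℤ × ℤ)) (hT : ∀ F F', F' ⊆ F → T F' ⊆ T F)
    (G : DEnv → Prop) {θ : ℝ}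
    (hG : ∀ Y : DEnv, Inv Y → (∀ e ∈ Y.E, (e.1 + e.2) % 2 = 1) → G Y →
      PrP q Y.E (Esc Y (T Y.E) (vx Y.α) R) ≤ θ) (l : ℕ) :
    PrP q X.E (Att X T G R0 R i (l + 1)) ≤ PrP q X.E (Att X T G R0 R i l) * θ := by
  set Q : ℕ → (ℕ → ℤ × ℤ) → Prop := fun t z => Mic R0 R i l t z with hQdef
  have hQ : DEnv.Adapted Q := adapted_mic l
  set A1 : Finset (ℤ × ℤ) → Prop := fun ω => ∃ hω : ω ⊆ X.E,
      ∃ n ≤ X.len ω, X.tau Q ω ≤ n ∧ Far R (vx (X.after Q hQ ω hω).α) (vx (X.cor ω n)) ∧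
        ∀ t, X.tau Q ω ≤ t → t < n → plab (X.cor ω t) ∉ T (X.after Q hQ ω hω).E with hA1
  have key := X.markov_le hq hQ A1 (Att X T G R0 R i l)
    (fun ω η => ∀ hω : ω ⊆ X.E, Esc (X.after Q hQ ω hω) (T (X.after Q hQ ω hω).E)
      (vx (X.after Q hQ ω hω).α) R η) θ ?_ ?_ ?_
  · refine le_trans (PrP_mono hq fun ω hω h => ?_) key
    obtain ⟨hω', a, t, ha, ht, htl, hav, hGG⟩ := h
    obtain ⟨u, hut, hu, hf, hmin⟩ := ht
    have hau : a ≤ u := mac_le_mic l hu ha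
    have hτ : X.tau Q ω = u := tau_mic X hω hu (by omega)
    refine ⟨⟨hω', t, htl, by omega, ?_, ?_⟩, hω', a, u, ha, hu, by omega,
      fun v hv hv' => hav v hv (by omega), fun v hv hv' hj => hGG v hv (by omega) ?_⟩
    · rw [DEnv.after_α, hτ]; exact hf
    · intro v hv hv' h
      rw [hτ] at hv
      rw [DEnv.after_E, sdiff_exset, hτ] at h
      exact hav v (by omega) hv' (hT _ _ (fresh_anti X hau) h)
    · obtain ⟨j, hj, hj'⟩ := hj
      exact ⟨j, by omega, hj'⟩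
  · rintro ω ω' hω hω' ⟨hm, a, t, ha, ht, htl, hav, hGG⟩
    obtain ⟨e1, e2⟩ := X.tau_mix hQ hω hω'
    have hτ : X.tau Q (mix (X.exset Q ω) ω ω') = t := tau_mic X hm ht htl
    have hτ' : X.tau Q ω = t := by rw [← e1, hτ]
    have hat : a ≤ t := mac_le_mic l ht ha
    rw [hτ'] at e2
    have htl' : t ≤ X.len ω := by rw [← hτ']; exact X.tau_le_len hω
    refine ⟨hω, a, t, mac_congr i a (fun j hj => e2 j (by omega)) ha,
      mic_congr l t (fun j hj => e2 j hj) ht, htl', ?_, ?_⟩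
    · intro u hu hu'
      have h1 := hav u hu hu'
      rw [e2 u hu'.le, fresh_congr (u := a) fun j hj => e2 j (by omega)] at h1
      exact h1
    · rintro u hu hu' ⟨j, hj, hj'⟩
      have h1 := hGG u hu hu' ⟨j, hj, mic_congr j u (fun k hk => (e2 k (by omega)).symm) hj'⟩
      have h2 : envt X (mix (X.exset Q ω) ω ω') hm u = envt X ω hω u :=
        Pool.Agent.H43.Q1.env_congr hω hm (by omega) (by omega) fun k hk => e2 k (by omega)
      rw [h2] at h1
      exact h1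
  · rintro ω hω ⟨hω1, a, t, ha, ht, htl, hav, hGG⟩
    have hτ : X.tau Q ω = t := tau_mic X hω ht htl
    have h1 : G (X.after Q hQ ω hω) := by
      rw [after_eq_envt, hτ]
      exact hGG t (mac_le_mic l ht ha) le_rfl ⟨l, le_rfl, ht⟩
    have h2 := hG (X.after Q hQ ω hω) (hI.after hQ hω)
      (fun e he => hE e (Finset.mem_sdiff.1 he).1) h1
    exact (PrP_mono hq fun η _ h => h hω).trans h2
  · rintro ω ω' hω hω' - ⟨hm, n, hn, hn1, hn2, hn3⟩ _
    rw [after_mix X hQ hω hω' hm] at hn2 hn3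
    obtain ⟨ht1, -⟩ := X.tau_mix hQ hω hω'
    have hlen := X.after_len hQ hω hω'
    rw [ht1] at hn1 hn3
    refine ⟨n - X.tau Q ω, by omega, ?_, ?_⟩
    · rw [X.after_cor hQ hω hω', Nat.sub_add_cancel hn1]
      exact hn2
    · intro t ht
      rw [X.after_cor hQ hω hω']
      exact hn3 _ (by omega) (by omega)

/-- **All attempts fail with small probability.** -/
theorem att_prob {q : ℤ × ℤ → ℝ} (hq : Pb q) (hI : Inv X) (hE : ∀ e ∈ X.E, (e.1 + e.2) % 2 = 1)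
    (hR : 0 < R) (T : Finset (ℤ × ℤ) → Finset (ℤ × ℤ)) (hT : ∀ F F', F' ⊆ F → T F' ⊆ T F)
    (G : DEnv → Prop) {θ : ℝ} (h0 : 0 ≤ θ)
    (hG : ∀ Y : DEnv, Inv Y → (∀ e ∈ Y.E, (e.1 + e.2) % 2 = 1) → G Y →
      PrP q Y.E (Esc Y (T Y.E) (vx Y.α) R) ≤ θ) (l : ℕ) :
    PrP q X.E (Att X T G R0 R i l) ≤ θ ^ l := by
  induction l with
  | zero => rw [pow_zero]; exact PrP_le_one hq _ _
  | succ l ih =>
    rw [pow_succ]
    exact (att_step hq hI hE hR T hT G hG l).trans (mul_le_mul_of_nonneg_right ih h0)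

/-- **Macroscopic pieces without success.** -/
theorem piece_prob {q : ℤ × ℤ → ℝ} (hq : Pb q) (hI : Inv X) (hE : ∀ e ∈ X.E, (e.1 + e.2) % 2 = 1)
    (hR0 : 0 < R0) (hR : 0 < R) (T : Finset (ℤ × ℤ) → Finset (ℤ × ℤ))
    (hT : ∀ F F', F' ⊆ F → T F' ⊆ T F)
    (G : DEnv → Prop) {θ : ℝ} (h0 : 0 ≤ θ)
    (hG : ∀ Y : DEnv, Inv Y → (∀ e ∈ Y.E, (e.1 + e.2) % 2 = 1) → G Y →
      PrP q Y.E (Esc Y (T Y.E) (vx Y.α) R) ≤ θ) {D : ℤ} {N : ℕ} (hD : 2 * R0 + (N * R + 1) ≤ D)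
    (m : ℕ) :
    PrP q X.E (fun ω => ∃ hω : ω ⊆ X.E, ∃ a n, a ≤ n ∧ n ≤ X.len ω ∧
        (∀ u, a ≤ u → u < n → plab (X.cor ω u) ∉ T (fresh X ω a)) ∧
        Far D (vx (X.cor ω a)) (vx (X.cor ω n)) ∧
        ∀ u, a ≤ u → u ≤ n → G (envt X ω hω u)) ≤
      PrP q X.E (fun ω => ∃ i t, m < i ∧ Mac R0 i t (X.cor ω) ∧ t ≤ X.len ω) +
        (m + 1) * θ ^ N := by
  have hatt : PrP q X.E (fun ω => ∃ i ∈ range (m + 1), Att X T G R0 R i N ω) ≤
      (m + 1) * θ ^ N := by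
    refine (PrP_exists_le hq X.E (range (m + 1)) _).trans ?_
    refine (sum_le_sum fun i _ => att_prob hq hI hE hR T hT G h0 hG N).trans ?_
    rw [sum_const, card_range, nsmul_eq_mul]
    push_cast
    exact le_rfl
  refine (PrP_mono hq (B := fun ω => (∃ i t, m < i ∧ Mac R0 i t (X.cor ω) ∧ t ≤ X.len ω) ∨
    ∃ i ∈ range (m + 1), Att X T G R0 R i N ω) fun ω hω h => ?_).trans
    ((PrP_or_le hq X.E _ _).trans (by linarith))
  obtain ⟨hω', a, n, han, hn, hav, hfar, hGG⟩ := h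
  have hNR : (0 : ℤ) ≤ N * R := by positivity
  obtain ⟨i, t, h1, h2, h3, -, h5⟩ := mac_in_step hR0 han
    (fun t _ _ => near_succ X ω t) (D := D) (by omega) hfar
  by_cases him : m < i
  · exact Or.inl ⟨i, t, him, h3, by omega⟩
  · right
    refine ⟨i, mem_range.2 (by omega), hω, ?_⟩
    obtain ⟨t', g1, g2, g3, -⟩ := mic_exists (R := R) h2 h3 (fun u => near_succ X ω u) hR (N := N)
      (h5.mono (by omega)) N le_rfl
    refine ⟨t, t', h3, g3, by omega, fun u hu hu' h => ?_, fun u hu hu' _ => hGG u (by omega)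
      (by omega)⟩
    exact hav u (by omega) (by omega) (hT _ _ (fresh_anti X h1.le) h)

end

end Pool.Agent.H79.M7
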