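import Mathlib
import Pool.Agent.H79.M7.GainB
import Pool.Agent.H79.M7.GainC

set_option autoImplicit false
open Finset Filter Topology

/-! # Gain: macroscopic pieces before the barrier meet medium cells (module M7, 2.7)

`NoG B c kS n ω` : a piece of size `c` before the barrier without a gain at the level `kS`.
`noGain_prob` : for a fixed base this has small probability for all large levels.
`stGain` : the statement `StGain` of the interface. -/

namespace Pool.Agent.H79.M7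

open Pool.Agent.H75.Perc Pool.Agent.H75.TwoArm Pool.Agent.H75.Four Pool.Agent.H99.NC
open Pool.Agent.H69.Q1 Pool.Agent.H39.Q1 Pool.Agent.H28.Q1
open Pool.Agent.H65.Dom hiding du_anti
open Pool.Agent.H81.Q1 (pt DDomain Approx IsJordanDomain IsArcs toDEnv_E toDEnv_W toDEnv_α)
open Pool.Agent.Q1.M3
open Pool.Agent.H82.Q1.M7 (medc Gain StGain)

section

variable {D : Set ℂ} {a b : ℂ} {A₁ A₂ : Set ℂ} {A : Approx D a b A₁ A₂} {r0 : ℝ}

/-- The event that a macroscopic piece of the path before the barrier contains no gain. -/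
def NoG (B : Base A r0) (c : ℝ) (kS n : ℕ) (ω : Finset (ℤ × ℤ)) : Prop :=
  ∃ s t, s ≤ t ∧ t ≤ (X0 A n).len ω ∧
    c ≤ dist (pt (A.δ n) (vx ((X0 A n).cor ω s))) (pt (A.δ n) (vx ((X0 A n).cor ω t))) ∧
    (∀ i < t, plab ((X0 A n).cor ω i) ∉ star (B.N n)) ∧ ¬ Gain B kS n ω s t

lemma sdiff_metE {X : DEnv} (ω : Finset (ℤ × ℤ)) (s : ℕ) :
    X.E \ Rules.metE X ω s = fresh X ω s := by
  ext e
  rw [mem_fresh, Finset.mem_sdiff, Rules.mem_metE]
  constructor
  · rintro ⟨h1, h2⟩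
    exact ⟨h1, fun k hk h => h2 ⟨h1, k, hk, h⟩⟩
  · rintro ⟨h1, h2⟩
    exact ⟨h1, fun ⟨_, k, hk, h⟩ => h2 k hk h⟩

/-- Without a gain the medium cells are not met. -/
lemma avoid_of_noGain (hD : Bornology.IsBounded D) {B : Base A r0} {kS n : ℕ}
    {ω : Finset (ℤ × ℤ)} {s t a' : ℕ} (hs : s ≤ a')
    (hN : ∀ i < t, plab ((X0 A n).cor ω i) ∉ star (B.N n)) (hG : ¬ Gain B kS n ω s t) {u : ℕ}
    (hu : a' ≤ u) (hu' : u < t) :
    plab ((X0 A n).cor ω u) ∉ Tm B kS n (fresh (X0 A n) ω a') := by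
  intro h
  unfold Tm at h
  rw [star_union] at h
  rcases Finset.mem_union.1 h with h | h
  · obtain ⟨v, hv, hev⟩ := mem_star.1 h
    obtain ⟨q, hq, hvq⟩ := mem_Mn.1 hv
    refine hG ⟨q, ?_, v, (mem_mverts (A.pos n)).1 hvq, u, by omega, hu', hev⟩
    rw [sdiff_metE]
    exact Uk_anti hD (fresh_anti _ hs) hq
  · exact hN u hu' h

lemma mreg_ev (hD : IsJordanDomain D) (hA : IsArcs D a b A₁ A₂) (B : Base A r0) {k : ℕ}
    (hk : B.qb.1 ≤ k) : ∀ᶠ n in atTop, MReg B k n := by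
  have hm := mesh_pos k
  have hqbD : cfat B.o B.qb ⊆ D := (B.subQ 0 _ B.qb_mem).trans Set.inter_subset_left
  have hfree : ∀ᶠ n in atTop, star (Vn (A.δ n) B.o {B.qb}) ⊆ (X0 A n).E :=
    star_free hD.1 hD.2.2.1 hA A B.o (C := {B.qb}) (fun q hq => by
      rw [Finset.mem_singleton.1 hq]; exact hqbD)
  have e1 : ∀ᶠ n in atTop, A.δ n < mesh k / 6 := A.lim.eventually_lt_const (by positivity)
  filter_upwards [hfree, e1, B.hN 0, B.conn, B.beta] with n h1 h2 h3 h4 h5
  refine ⟨hk, h2, ?_, ?_, h4, h5⟩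
  · obtain ⟨N', hN', -⟩ := h3
    rw [hN']
    intro v hv
    exact Finset.mem_union_left _ (mem_Vn.2 ⟨_, B.qb_mem, hv⟩)
  · intro e he
    exact h1 (star_mono (fun v hv => mem_Vn.2 ⟨_, Finset.mem_singleton_self _, hv⟩) he)

/-- The environments before the barrier. -/
lemma gm_envt {B : Base A r0} {k n : ℕ} (hR : MReg B k n) {r : ℤ} {ω : Finset (ℤ × ℤ)}
    (hω : ω ⊆ (X0 A n).E) {u : ℕ} (hu : u ≤ (X0 A n).len ω)
    (hN : ∀ i < u, plab ((X0 A n).cor ω i) ∉ star (B.N n))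
    (hOk : Ok r (star (B.F k n (envt (X0 A n) ω hω u).E)) (envt (X0 A n) ω hω u)) :
    GM B k n r (envt (X0 A n) ω hω u) := by
  refine ⟨hOk, by rw [envt_β]; exact hR.beta, ?_⟩
  intro e he
  obtain ⟨h1, h2⟩ := Finset.mem_inter.1 he
  rw [Finset.mem_union, envt_E hu hω, envt_W hu hω, mem_fresh, Finset.mem_union]
  rcases Finset.mem_union.1 h2 with h3 | h3
  · refine Or.inl ⟨h3, ?_⟩
    rintro i hi rfl
    exact hN i hi (kap_sub_star _ h1)
  · exact Or.inr (Or.inl h3)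

/-- **Macroscopic pieces contain gains** (fixed base, all large levels). -/
theorem noGain_prob (hD : IsJordanDomain D) (hA : IsArcs D a b A₁ A₂) (A : Approx D a b A₁ A₂)
    (hab : a ≠ b) {r0 : ℝ} (B : Base A r0) {c θ : ℝ} (hc : 0 < c) (hθ : 0 < θ) :
    ∃ k00, ∀ kS, k00 ≤ kS → ∀ᶠ n in atTop, Pr (X0 A n).E (NoG B c kS n) ≤ θ := by
  have hDo := hD.1
  have hDc := hD.2.1
  have hDb := hD.2.2.1
  have hd : 0 < dist a b := dist_pos.2 hab
  obtain ⟨δ0, hDec⟩ := dec_half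
  have hδ0 := (hDec 0).2.1
  have hδ1 := (hDec 0).2.2.1
  obtain ⟨j, hj⟩ : ∃ j : ℕ, 6 * (1 - δ0) ^ j ≤ 1 / 2 := by
    obtain ⟨j, hj⟩ := exists_pow_lt_of_lt_one (show (0 : ℝ) < 1 / 12 by norm_num)
      (by linarith : 1 - δ0 < 1)
    exact ⟨j, by linarith⟩
  have h4j : (1 : ℝ) ≤ 4 ^ j := one_le_pow₀ (by norm_num)
  -- macroscopic scale
  set ρ := c / 64 with hρ
  have hρ0 : 0 < ρ := by positivity
  obtain ⟨m, hm⟩ := mac_prob hDb hDc.nonempty hA A hρ0 (show (0 : ℝ) < θ / 4 by positivity)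
  obtain ⟨N, hN⟩ : ∃ N : ℕ, ((m : ℝ) + 1) * (1 / 2) ^ N ≤ θ / 4 := by
    obtain ⟨N, hN⟩ := exists_pow_lt_of_lt_one (show (0 : ℝ) < θ / (4 * (m + 1)) by positivity)
      (by norm_num : (1 / 2 : ℝ) < 1)
    refine ⟨N, ?_⟩
    rw [lt_div_iff₀ (by positivity)] at hN
    nlinarith
  -- small scale
  set μ := c / (64 * (N + 1)) with hμ
  have hμ0 : 0 < μ := by positivity
  have hμN : (N + 1) * μ = c / 64 := by rw [hμ]; field_simp
  set r := μ / (64 * 4 ^ j) with hr
  have hr0 : 0 < r := by positivity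
  have hr4 : 4 ^ j * r = μ / 64 := by rw [hr]; field_simp
  -- the first phase
  set s' := min (c / 8) (dist a b / 4) with hs'
  have hs'0 : 0 < s' := lt_min (by positivity) (by positivity)
  have hs'c : s' ≤ c / 8 := min_le_left _ _
  obtain ⟨s, hs0, hss, G, hGc, hGD, hG⟩ := cross_bulk hDo hDb hDc.nonempty hA A (p := a)
    (s' := s') hs'0 (Or.inl rfl)
    (Or.inr (by
      have := min_le_right (c / 8) (dist a b / 4)
      rw [dist_comm b a]; linarith)) (show (0 : ℝ) < θ / 4 by positivity)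
  obtain ⟨k1, C, hC, hGC⟩ := stFam hDo hDc hDb A _ B G hGc hGD
  obtain ⟨k01, hk01⟩ := stOkB hD hA A B r hr0 (θ / 4) (by positivity) k1 C hC
  obtain ⟨k02, hk02⟩ := mesh_lt (show (0 : ℝ) < r / 4 by positivity)
  refine ⟨max k01 (max k02 B.qb.1), fun kS hkS => ?_⟩
  have hkS1 : k01 ≤ kS := le_of_max_le_left hkS
  have hkS2 : k02 ≤ kS := le_of_max_le_left (le_of_max_le_right hkS)
  have hkS3 : B.qb.1 ≤ kS := le_of_max_le_right (le_of_max_le_right hkS)
  have hmesh := hk02 kS hkS2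
  have e1 : ∀ᶠ n in atTop, A.δ n < μ / (1000 * 4 ^ j) := A.lim.eventually_lt_const (by positivity)
  have e2 : ∀ᶠ n in atTop, A.δ n < c / 1000 := A.lim.eventually_lt_const (by positivity)
  have e4 : ∀ᶠ n in atTop, dist (pt (A.δ n) (A.X n).α.1) a < s :=
    (Metric.tendsto_nhds.1 A.limα) _ hs0
  filter_upwards [hm, hk01 kS hkS1, hG, mreg_ev hD hA B hkS3, e1, e2, e4]
    with n hm' hOk' hG' hReg hn1 hn2 hn4
  have hδ := A.pos n
  have hE0 : (X0 A n).E = EL (A.X n) := toDEnv_E _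
  rw [← hE0] at hG'
  set X := X0 A n with hX
  have hI : Inv X := inv_toDEnv _
  have hodd : ∀ e ∈ X.E, (e.1 + e.2) % 2 = 1 := odd_toDEnv _
  -- integers
  set rz : ℤ := ⌊r / A.δ n⌋ with hrz
  set rm : ℤ := ⌈2 * mesh kS / A.δ n⌉ + 1 with hrm
  set R0 : ℤ := ⌊ρ / A.δ n⌋ with hR0def
  set R : ℤ := ⌊μ / A.δ n⌋ with hRdef
  have hδj : 1000 * (4 ^ j * A.δ n) < μ := by
    rw [lt_div_iff₀ (by positivity)] at hn1
    linarith
  have hδμ : 1000 * A.δ n < μ := by
    have : A.δ n ≤ 4 ^ j * A.δ n := le_mul_of_one_le_left hδ.le h4j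
    linarith
  have hμc : μ ≤ c / 64 := by
    have : μ ≤ (N + 1) * μ := le_mul_of_one_le_left hμ0.le (by
      have : (0 : ℝ) ≤ N := Nat.cast_nonneg _
      linarith)
    linarith
  have hR0pos : 0 < R0 := by
    rw [hR0def, Int.floor_pos, le_div_iff₀ hδ, hρ]
    linarith
  have hRpos : 0 < R := by
    rw [hRdef, Int.floor_pos, le_div_iff₀ hδ]
    linarith
  have hR0le : A.δ n * R0 ≤ ρ := by
    have := Int.floor_le (ρ / A.δ n)
    rw [le_div_iff₀ hδ] at this
    linarith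
  have hRle : A.δ n * R ≤ μ := by
    have := Int.floor_le (μ / A.δ n)
    rw [le_div_iff₀ hδ] at this
    linarith
  have hRge : μ - A.δ n < A.δ n * R := by
    have := Int.lt_floor_add_one (μ / A.δ n)
    rw [div_lt_iff₀ hδ] at this
    rw [← hRdef] at this
    linarith
  have hrz0 : 0 ≤ rz := Int.floor_nonneg.2 (by positivity)
  have hrzle : A.δ n * rz ≤ r := by
    have := Int.floor_le (r / A.δ n)
    rw [le_div_iff₀ hδ] at this
    linarith
  have hrmle : A.δ n * rm ≤ r / 2 + 2 * A.δ n := by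
    have h1 := (Int.ceil_lt_add_one (2 * mesh kS / A.δ n)).le
    have h2 := mul_le_mul_of_nonneg_left h1 hδ.le
    rw [mul_add, mul_div_cancel₀ _ hδ.ne'] at h2
    rw [hrm]
    push_cast
    linarith
  have hrmge : 2 * mesh kS / A.δ n + 1 ≤ rm := by
    rw [hrm]
    push_cast
    linarith [Int.le_ceil (2 * mesh kS / A.δ n)]
  have hscale : (4 ^ j * (rz + 2) + 1) + (4 ^ j * (rm + 2) + 1) ≤ R := by
    have h1 : A.δ n * (((4 ^ j * (rz + 2) + 1) + (4 ^ j * (rm + 2) + 1) : ℤ) : ℝ) ≤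
        A.δ n * R := by
      have e : A.δ n * (((4 ^ j * (rz + 2) + 1) + (4 ^ j * (rm + 2) + 1) : ℤ) : ℝ) =
          4 ^ j * (A.δ n * rz) + 4 ^ j * (A.δ n * rm) + 4 * (4 ^ j * A.δ n) + 2 * A.δ n := by
        push_cast; ring
      rw [e]
      have g1 : 4 ^ j * (A.δ n * rz) ≤ 4 ^ j * r := mul_le_mul_of_nonneg_left hrzle (by positivity)
      have g2 : 4 ^ j * (A.δ n * rm) ≤ 4 ^ j * (r / 2 + 2 * A.δ n) :=
        mul_le_mul_of_nonneg_left hrmle (by positivity)
      have g3 : (4 : ℝ) ^ j * (r / 2 + 2 * A.δ n) = 4 ^ j * r / 2 + 2 * (4 ^ j * A.δ n) := by ring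
      linarith
    have h2 := le_of_mul_le_mul_left h1 hδ
    exact_mod_cast h2
  -- the main estimate
  have key := piece_prob (X := X) (q := fun _ => 1 / 2) (hDec 0).1 hI hodd (R0 := R0) (R := R)
    hR0pos hRpos
    (fun F => Tm B kS n F) (fun F F' h => Tm_anti B hDb kS n h) (GM B kS n rz) (θ := 1 / 2)
    (by norm_num) (fun Y hY hYE hGY => (two_stage B hDb hReg
      (hDec (max (4 ^ j * (rz + 2)) (4 ^ j * (rm + 2)))) hY hYE hGY hrz0 hrmge
      (le_max_left _ _) (le_max_right _ _) hscale).trans hj) (N := N) le_rfl m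
  rw [PrP_half, PrP_half] at key
  refine (Pr_mono fun ω hω h => ?_).trans ((Pr_or_le X.E _ _).trans
    ((add_le_add (key.trans (add_le_add hm' hN)) ((Pr_or_le X.E _ _).trans
      (add_le_add hOk' hG'))).trans (by linarith)))
  by_contra hcon
  rw [not_or, not_or] at hcon
  obtain ⟨hn1', hn2', hn3'⟩ := hcon
  obtain ⟨s1, t, hst, htl, hdist, hNN, hGn⟩ := h
  have htl' : t ≤ X.len ω := htl
  set q : ℕ → ℂ := fun t => pt (A.δ n) (vx (X.cor ω t)) with hq
  have hstep : ∀ t, dist (q t) (q (t + 1)) ≤ 2 * A.δ n := fun t => dist_cor_succ X hδ ω t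
  have h0 : dist (q 0) a ≤ s := by
    have : q 0 = pt (A.δ n) (A.X n).α.1 := by
      rw [hq]
      simp only [DEnv.cor_zero]
      rw [hX]
      unfold X0
      rw [toDEnv_α, vx_cor]
    rw [this]
    exact hn4.le
  -- the first phase stays near `a`
  have first : ∀ w ≤ X.len ω, (∀ v < w, plab (X.cor ω v) ∉ star (Vn (A.δ n) B.o C)) →
      dist (q w) a ≤ s' + 2 * A.δ n := by
    intro w hw hav
    rcases Nat.eq_zero_or_pos w with h | h
    · subst h
      linarith
    · by_contra hcon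
      push Not at hcon
      refine hn3' ⟨0, w - 1, Nat.zero_le _, le_trans (Nat.sub_le _ _) hw, Or.inl ⟨h0, ?_⟩, fun v _ hv hvG => ?_⟩
      · have h1 := hstep (w - 1)
        rw [Nat.sub_add_cancel h] at h1
        have h2 := dist_triangle (q w) (q (w - 1)) a
        rw [dist_comm (q w) (q (w - 1))] at h2
        change s' ≤ dist (q (w - 1)) a
        linarith
      · refine hav v (by omega) ?_
        obtain ⟨q', hq', h2⟩ := Set.mem_iUnion₂.1 (hGC hvG)
        exact star1_sub_star (mem_Vn.2 ⟨q', hq', (mem_verts hδ).2 h2⟩) (plab_star1 _)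
  -- the start of the second phase
  obtain ⟨a', ha1, ha2, ha3, ha4⟩ : ∃ a', s1 ≤ a' ∧ a' ≤ t ∧
      (∃ u < a', plab (X.cor ω u) ∈ star (Vn (A.δ n) B.o C)) ∧
      c / 2 ≤ dist (q a') (q t) := by
    by_cases hph : ∃ u < s1, plab (X.cor ω u) ∈ star (Vn (A.δ n) B.o C)
    · exact ⟨s1, le_rfl, hst, hph, le_trans (by linarith) hdist⟩
    · push Not at hph
      have hds : dist (q s1) a ≤ s' + 2 * A.δ n := first s1 (hst.trans htl) hph
      have hdist' : c ≤ dist (q s1) (q t) := hdist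
      by_cases hex : ∃ u, u < t ∧ plab (X.cor ω u) ∈ star (Vn (A.δ n) B.o C)
      · classical
        set u := Nat.find hex with hu
        obtain ⟨g1, g2⟩ := Nat.find_spec hex
        have hmin : ∀ w < u, plab (X.cor ω w) ∉ star (Vn (A.δ n) B.o C) := fun w hw h =>
          Nat.find_min hex hw ⟨by omega, h⟩
        have hsu : s1 ≤ u := by
          by_contra hcon
          push Not at hcon
          exact hph u hcon g2
        refine ⟨u + 1, by omega, by omega, ⟨u, by omega, g2⟩, ?_⟩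
        have h1 := first u (by omega) hmin
        have h2 := hstep u
        have h3 := dist_triangle4 (q s1) a (q u) (q t)
        have h4 := dist_triangle (q u) (q (u + 1)) (q t)
        rw [dist_comm a] at h3
        linarith
      · push Not at hex
        exfalso
        have h1 := first t htl hex
        have h3 := dist_triangle (q s1) a (q t)
        rw [dist_comm a] at h3
        linarith
  refine hn1' ⟨hω, a', t, ha2, htl, fun u hu hu' => avoid_of_noGain hDb ha1 hNN hGn hu hu', ?_,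
    fun u hu hu' => gm_envt hReg hω (by omega) (fun i hi => hNN i (by omega)) ?_⟩
  · refine far_of_dist_pt hδ ha4 ?_
    have e : 2 * A.δ n * ((2 * R0 + (N * R + 1) : ℤ) : ℝ) =
        4 * (A.δ n * R0) + 2 * (N * (A.δ n * R)) + 2 * A.δ n := by
      push_cast; ring
    rw [e]
    have g1 : (N : ℝ) * (A.δ n * R) ≤ N * μ := mul_le_mul_of_nonneg_left hRle (Nat.cast_nonneg _)
    have g2 : (N : ℝ) * μ ≤ (N + 1) * μ := by nlinarith
    rw [hρ] at hR0le
    linarith
  · by_contra hcon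
    obtain ⟨u', hu1, hu2⟩ := ha3
    exact hn2' ⟨hω, u, hu'.trans htl', ⟨u', by omega, hu2⟩, fun i hi => hNN i (by omega), hcon⟩

/-- **[GAIN]** -/
theorem stGain (hD : IsJordanDomain D) (hA : IsArcs D a b A₁ A₂) (A : Approx D a b A₁ A₂)
    (hab : a ≠ b) {r0 : ℝ} (B : Base A r0) : StGain B := by
  intro c hc θ hθ k0'
  obtain ⟨k00, h⟩ := noGain_prob hD hA A hab B hc hθ
  exact ⟨max k00 (max k0' B.qb.1), (le_max_left _ _).trans (le_max_right _ _),
    (le_max_right _ _).trans (le_max_right _ _), h _ (le_max_left _ _)⟩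

end

end Pool.Agent.H79.M7
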